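import Pool.Agent.H958.RO.Stm
import Pool.Graph.R_seed8.W571.RD.Pind

set_option autoImplicit false

/-! # Project RO, PSUB and CHEB -/

namespace Pool.Agent.H603.RO.Cheb

open Finset
open scoped Classical
open Pool.Agent.W830.RD (Om gle Pr Rlz)
open Pool.Agent.W571.RD.Pind (ind ind_pos ind_neg EX EX_one EX_congr EX_mul EX_mul' fub)

noncomputable section

variable {α : Type} [DecidableEq α]

/-- the probability that the given elements are present -/
theorem EX_sub (p : ℝ) (W A : Finset α) (h : A ⊆ W) :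
    EX p W (fun E => ind (A ⊆ E)) = p ^ A.card := by
  have hW : W = A ∪ (W \ A) := (Finset.union_sdiff_of_subset h).symm
  have hd : Disjoint A (W \ A) := Finset.disjoint_sdiff
  rw [hW, fub p _ _ hd]
  have key : ∀ E1 ⊆ A, EX p (W \ A) (fun E2 => ind (A ⊆ E1 ∪ E2)) = ind (E1 = A) := by
    intro E1 h1
    rw [EX_congr p (W \ A) _ (fun _ => ind (E1 = A) * 1), EX_mul', EX_one, mul_one]
    intro E2 h2
    rw [mul_one]
    by_cases he : E1 = A
    · rw [ind_pos he, ind_pos]
      rw [he]
      exact Finset.subset_union_left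
    · rw [ind_neg he, ind_neg]
      intro hs
      apply he
      apply Finset.Subset.antisymm h1
      intro x hx
      rcases Finset.mem_union.1 (hs hx) with h' | h'
      · exact h'
      · exact absurd hx (Finset.mem_sdiff.1 (h2 h')).2
  rw [EX_congr p A _ (fun E1 => ind (E1 = A)) key]
  unfold EX
  rw [Finset.sum_eq_single_of_mem A (Finset.mem_powerset_self A)]
  · beta_reduce
    rw [ind_pos rfl, Nat.sub_self, pow_zero, mul_one, mul_one]
  · intro E _ hE
    beta_reduce
    rw [ind_neg hE, mul_zero]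

omit [DecidableEq α] in
theorem EX_sum (p : ℝ) (W : Finset α) {ι : Type} (F : Finset ι) (f : ι → Finset α → ℝ) :
    EX p W (fun E => ∑ i ∈ F, f i E) = ∑ i ∈ F, EX p W (f i) := by
  unfold EX
  rw [Finset.sum_comm]
  refine Finset.sum_congr rfl fun E _ => ?_
  rw [Finset.mul_sum]

omit [DecidableEq α] in
theorem EX_add (p : ℝ) (W : Finset α) (F G : Finset α → ℝ) :
    EX p W (fun E => F E + G E) = EX p W F + EX p W G := by
  unfold EX
  rw [← Finset.sum_add_distrib]
  refine Finset.sum_congr rfl fun E _ => ?_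
  ring

theorem Pr_eq (p : ℝ) (n : ℕ) (Q : Finset (Fin n × Fin n) → Prop) :
    Pr p n Q = EX p (Om n) (fun E => ind (Q E)) := by
  unfold Pr EX
  rw [Finset.sum_filter]
  refine Finset.sum_congr rfl fun E _ => ?_
  beta_reduce
  by_cases h : Q E
  · rw [if_pos h, ind_pos h, mul_one]
  · rw [if_neg h, ind_neg h, mul_zero]

theorem main1 : Pool.Agent.H958.RO.S_PSUB := by
  intro p n A _ _ hA
  rw [Pr_eq]
  exact EX_sub p (Om n) A hA

omit [DecidableEq α] in
/-- Chebyshev -/
theorem cheb (p : ℝ) (W : Finset α) (hp : 0 < p) (hp1 : p < 1) (Z : Finset α → ℝ) (mu t : ℝ)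
    (ht : 0 < t) (hmu : EX p W Z = mu) :
    EX p W (fun E => ind (mu + t < Z E)) ≤ (EX p W (fun E => Z E * Z E) - mu ^ 2) / t ^ 2 := by
  have h1 : EX p W (fun E => t ^ 2 * ind (mu + t < Z E)) ≤ EX p W (fun E => (Z E - mu) ^ 2) := by
    unfold EX
    refine Finset.sum_le_sum fun E _ => ?_
    have hm : 0 ≤ p ^ E.card * (1 - p) ^ (W.card - E.card) :=
      mul_nonneg (pow_nonneg hp.le _) (pow_nonneg (by linarith) _)
    refine mul_le_mul_of_nonneg_left ?_ hm
    beta_reduce
    by_cases h : mu + t < Z E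
    · rw [ind_pos h]
      nlinarith
    · rw [ind_neg h, mul_zero]
      positivity
  have h2 : EX p W (fun E => (Z E - mu) ^ 2) = EX p W (fun E => Z E * Z E) - mu ^ 2 := by
    have : (fun E => (Z E - mu) ^ 2) =
        (fun E => (Z E * Z E + (-2 * mu) * Z E) + mu ^ 2 * 1) := by
      funext E
      ring
    rw [this, EX_add, EX_add, EX_mul', EX_mul', EX_one, hmu]
    ring
  rw [EX_mul', h2] at h1
  rw [le_div_iff₀ (by positivity), mul_comm]
  exact h1

theorem main2 : Pool.Agent.H958.RO.S_CHEB := by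
  intro p n ι F A t hp hp1 hA ht
  have hZ : ∀ E : Finset (Fin n × Fin n), ((F.filter (fun i => A i ⊆ E)).card : ℝ) =
      ∑ i ∈ F, ind (A i ⊆ E) := by
    intro E
    rw [Finset.card_filter]
    push_cast
    refine Finset.sum_congr rfl fun i _ => ?_
    by_cases h : A i ⊆ E
    · rw [if_pos h, ind_pos h]
    · rw [if_neg h, ind_neg h]
  have hmu : EX p (Om n) (fun E => ∑ i ∈ F, ind (A i ⊆ E)) = ∑ i ∈ F, p ^ (A i).card := by
    rw [EX_sum]
    exact Finset.sum_congr rfl fun i hi => EX_sub p (Om n) (A i) (hA i hi)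
  have hsq : EX p (Om n) (fun E => (∑ i ∈ F, ind (A i ⊆ E)) * (∑ i ∈ F, ind (A i ⊆ E))) =
      ∑ i ∈ F, ∑ j ∈ F, p ^ (A i ∪ A j).card := by
    have e : (fun E : Finset (Fin n × Fin n) =>
        (∑ i ∈ F, ind (A i ⊆ E)) * (∑ i ∈ F, ind (A i ⊆ E))) =
        (fun E => ∑ i ∈ F, ∑ j ∈ F, ind (A i ∪ A j ⊆ E)) := by
      funext E
      rw [Finset.sum_mul_sum]
      refine Finset.sum_congr rfl fun i _ => Finset.sum_congr rfl fun j _ => ?_
      by_cases h1 : A i ⊆ E
      · by_cases h2 : A j ⊆ E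
        · rw [ind_pos h1, ind_pos h2, ind_pos (Finset.union_subset h1 h2), mul_one]
        · rw [ind_neg h2, mul_zero, ind_neg]
          exact fun h => h2 (Finset.subset_union_right.trans h)
      · rw [ind_neg h1, zero_mul, ind_neg]
        exact fun h => h1 (Finset.subset_union_left.trans h)
    rw [e, EX_sum]
    refine Finset.sum_congr rfl fun i hi => ?_
    rw [EX_sum]
    exact Finset.sum_congr rfl fun j hj =>
      EX_sub p (Om n) (A i ∪ A j) (Finset.union_subset (hA i hi) (hA j hj))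
  rw [Pr_eq]
  have h := cheb p (Om n) hp hp1 (fun E => ∑ i ∈ F, ind (A i ⊆ E)) _ t ht hmu
  rw [hsq] at h
  refine le_trans (le_of_eq ?_) h
  apply EX_congr
  intro E _
  rw [hZ E]

end

end Pool.Agent.H603.RO.Cheb
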