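import Pool.Agent.H705.RO.Stm2

/-! # Joint measurability -/

set_option autoImplicit false

namespace Pool.Agent.H603.RO

open MeasureTheory ProbabilityTheory Filter Topology Finset
open Pool.Agent.H705.RO

theorem T_JM (hARC : P_ARC) : P_JM := by
  intro Ω _ P X hM a β g w s δ N M M'
  have h1 : ∀ n, Measurable fun z : Ω × ℝ => (X n z.1).1 := fun n =>
    measurable_fst.comp ((hM.meas n).comp measurable_fst)
  have h2 : ∀ n, Measurable fun z : Ω × ℝ => (X n z.1).2 := fun n =>
    measurable_snd.comp ((hM.meas n).comp measurable_fst)
  constructor
  · have harg : ∀ n, Measurable fun z : Ω × ℝ => arg g w s (fun n => X n z.1) n z.2 := by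
      intro n
      unfold arg
      exact ((((measurable_const.add (measurable_const.mul (h1 n))).mul measurable_snd).div_const
        _).add (h2 n)).add_const _
    have e : {z : Ω × ℝ | ∀ n < N, nr δ (arg g w s (fun n => X n z.1) n z.2)} =
        ⋂ n ∈ Finset.range N,
          (fun z : Ω × ℝ => arg g w s (fun n => X n z.1) n z.2) ⁻¹' {y : ℝ | nr δ y} := by
      ext z
      simp only [Set.mem_ofPred_eq, Set.mem_iInter, Finset.mem_range, Set.mem_preimage]
    rw [e]
    exact Finset.measurableSet_biInter _ fun n _ => harg n (hARC.2.2 δ)
  · have hw : ∀ n, Measurable fun z : Ω × ℝ => wave a β g w (fun n => X n z.1) n z.2 := by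
      intro n
      unfold wave
      exact measurable_const.mul (Real.measurable_cos.comp
        ((((measurable_const.add (measurable_const.mul (h1 n))).mul measurable_snd).add
          (measurable_const.mul (h2 n))).add_const _))
    have hsum : Measurable fun z : Ω × ℝ =>
        |∑ n ∈ Ico M M', wave a β g w (fun n => X n z.1) n z.2| := by
      have := Finset.measurable_sum (Ico M M') fun n _ => hw n
      exact this.abs
    exact measurableSet_le measurable_const hsum

end Pool.Agent.H603.RO
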